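import Mathlib

/-!
# Induced subcomplexes of canonical join complexes

The class of canonical join complexes of finite semidistributive lattices is not closed under
taking induced subcomplexes.

* For every finite loopless digraph we build a finite semidistributive lattice (simultaneous interval
  doublings of a Boolean lattice) having for every vertex `x` a join-irreducible `g x` such that
  `{g x, g y}` is a face of the canonical join complex exactly when `x` and `y` are not adjacent.
* If the non-edges of the canonical join complex of a finite semidistributive lattice form a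
  triangle-free graph, then this graph is 3-colourable.
* The Groetzsch graph is triangle-free and not 3-colourable.
-/

set_option autoImplicit false

namespace Pool.Agent.Results.MP_b1aa48_co.NotInducedClosed

open Finset

universe u v

/-- A lattice is semidistributive if it is join-semidistributive and meet-semidistributive. -/
def IsSemidistributive (L : Type u) [Lattice L] : Prop :=
  (∀ x y z : L, x ⊔ y = x ⊔ z → x ⊔ (y ⊓ z) = x ⊔ y) ∧
    (∀ x y z : L, x ⊓ y = x ⊓ z → x ⊓ (y ⊔ z) = x ⊓ y)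

/-- `A` is the canonical join representation of `w`: its join is `w`, no proper subset of `A` has
join `w`, and `A` refines every join representation of `w`. -/
def IsCanonicalJoinRep {L : Type u} [Lattice L] [OrderBot L] (A : Finset L) (w : L) : Prop :=
  A.sup id = w ∧ (∀ B : Finset L, B ⊂ A → B.sup id ≠ w) ∧
    ∀ C : Finset L, C.sup id = w → ∀ a ∈ A, ∃ c ∈ C, a ≤ c

/-- The faces of the canonical join complex of `L`, a complex on the join-irreducible elements. -/
def IsFace (L : Type u) [Lattice L] [OrderBot L] (S : Finset {j : L // SupIrred j}) : Prop :=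
  ∃ w : L, IsCanonicalJoinRep (S.map (Function.Embedding.subtype _)) w

/-- The set with the two elements `a` and `b` (auxiliary, not used in the main statement). -/
noncomputable def pr {α : Type u} (a b : α) : Finset α :=
  haveI := Classical.decEq α
  {a, b}

theorem mem_pr {α : Type u} {a b c : α} : c ∈ pr a b ↔ c = a ∨ c = b := by
  simp [pr]

theorem pr_comm {α : Type u} (a b : α) : pr a b = pr b a := by
  ext c
  rw [mem_pr, mem_pr, or_comm]

theorem map_pr {α : Type u} {β : Type v} (f : α ↪ β) (a b : α) :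
    (pr a b).map f = pr (f a) (f b) := by
  ext c
  rw [Finset.mem_map, mem_pr]
  constructor
  · rintro ⟨x, hx, rfl⟩
    rcases mem_pr.1 hx with rfl | rfl
    · exact Or.inl rfl
    · exact Or.inr rfl
  · rintro (rfl | rfl)
    · exact ⟨a, mem_pr.2 (Or.inl rfl), rfl⟩
    · exact ⟨b, mem_pr.2 (Or.inr rfl), rfl⟩

theorem sup_pr {L : Type u} [Lattice L] [OrderBot L] (a b : L) : (pr a b).sup id = a ⊔ b := by
  apply le_antisymm
  · apply Finset.sup_le
    intro c hc
    rcases mem_pr.1 hc with rfl | rfl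
    · exact le_sup_left
    · exact le_sup_right
  · exact sup_le (Finset.le_sup (f := id) (mem_pr.2 (Or.inl rfl)))
      (Finset.le_sup (f := id) (mem_pr.2 (Or.inr rfl)))

/-! ### The lattice of a digraph -/

section Construction

variable {P V : Type} (A B : V → Set P)

/-- The lattice: pairs `(S, T)` such that `w ∈ T` is forced if `A w` meets `S`, and is allowed only
if `A w` meets `S` or `B w ⊆ S`. -/
def Lat : Type := {x : Set P × Set V //
  ∀ w, ((A w ∩ x.1).Nonempty → w ∈ x.2) ∧ (w ∈ x.2 → (A w ∩ x.1).Nonempty ∨ B w ⊆ x.1)}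

variable {A B}

theorem Lat.ext' {x y : Lat A B} (h1 : x.1.1 = y.1.1) (h2 : x.1.2 = y.1.2) : x = y :=
  Subtype.ext (Prod.ext h1 h2)

instance : PartialOrder (Lat A B) := inferInstanceAs (PartialOrder {_x : Set P × Set V // _})

theorem Lat.le_iff {x y : Lat A B} : x ≤ y ↔ x.1.1 ⊆ y.1.1 ∧ x.1.2 ⊆ y.1.2 := Iff.rfl

/-- The join. -/
def Lat.join (x y : Lat A B) : Lat A B :=
  ⟨(x.1.1 ∪ y.1.1, x.1.2 ∪ y.1.2), fun w => by
    constructor
    · rintro ⟨p, hp, hp'⟩
      rcases hp' with h | h
      · exact Or.inl ((x.2 w).1 ⟨p, hp, h⟩)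
      · exact Or.inr ((y.2 w).1 ⟨p, hp, h⟩)
    · rintro (h | h)
      · rcases (x.2 w).2 h with ⟨p, hp, hp'⟩ | h'
        · exact Or.inl ⟨p, hp, Or.inl hp'⟩
        · exact Or.inr (h'.trans Set.subset_union_left)
      · rcases (y.2 w).2 h with ⟨p, hp, hp'⟩ | h'
        · exact Or.inl ⟨p, hp, Or.inr hp'⟩
        · exact Or.inr (h'.trans Set.subset_union_right)⟩

/-- The meet. -/
def Lat.meet (x y : Lat A B) : Lat A B :=
  ⟨(x.1.1 ∩ y.1.1, {w | w ∈ x.1.2 ∧ w ∈ y.1.2 ∧
      ((A w ∩ (x.1.1 ∩ y.1.1)).Nonempty ∨ B w ⊆ x.1.1 ∩ y.1.1)}), fun w => by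
    constructor
    · rintro ⟨p, hp, hp'⟩
      exact ⟨(x.2 w).1 ⟨p, hp, hp'.1⟩, (y.2 w).1 ⟨p, hp, hp'.2⟩, Or.inl ⟨p, hp, hp'⟩⟩
    · rintro ⟨-, -, h⟩
      exact h⟩

instance : Lattice (Lat A B) :=
  { (inferInstance : PartialOrder (Lat A B)) with
    sup := Lat.join
    inf := Lat.meet
    le_sup_left := fun _ _ => ⟨Set.subset_union_left, Set.subset_union_left⟩
    le_sup_right := fun _ _ => ⟨Set.subset_union_right, Set.subset_union_right⟩
    sup_le := fun _ _ _ h1 h2 => ⟨Set.union_subset h1.1 h2.1, Set.union_subset h1.2 h2.2⟩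
    inf_le_left := fun _ _ => ⟨Set.inter_subset_left, fun _ hw => hw.1⟩
    inf_le_right := fun _ _ => ⟨Set.inter_subset_right, fun _ hw => hw.2.1⟩
    le_inf := fun z _ _ h1 h2 => ⟨Set.subset_inter h1.1 h2.1, fun w hw =>
      ⟨h1.2 hw, h2.2 hw, by
        rcases (z.2 w).2 hw with ⟨p, hp, hp'⟩ | h'
        · exact Or.inl ⟨p, hp, h1.1 hp', h2.1 hp'⟩
        · exact Or.inr (h'.trans (Set.subset_inter h1.1 h2.1))⟩⟩ }

instance : OrderBot (Lat A B) where
  bot := ⟨(∅, ∅), fun w => ⟨by rintro ⟨p, -, hp⟩; exact hp, fun h => h.elim⟩⟩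
  bot_le := fun _ => ⟨Set.empty_subset _, Set.empty_subset _⟩

instance [Finite P] [Finite V] : Finite (Lat A B) :=
  inferInstanceAs (Finite {_x : Set P × Set V // _})

theorem sup_fst (x y : Lat A B) : (x ⊔ y).1.1 = x.1.1 ∪ y.1.1 := rfl
theorem sup_snd (x y : Lat A B) : (x ⊔ y).1.2 = x.1.2 ∪ y.1.2 := rfl
theorem inf_fst (x y : Lat A B) : (x ⊓ y).1.1 = x.1.1 ∩ y.1.1 := rfl
theorem mem_inf_snd (x y : Lat A B) (w : V) : w ∈ (x ⊓ y).1.2 ↔
    w ∈ x.1.2 ∧ w ∈ y.1.2 ∧ ((A w ∩ (x.1.1 ∩ y.1.1)).Nonempty ∨ B w ⊆ x.1.1 ∩ y.1.1) := Iff.rfl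

theorem lat_semidistributive : IsSemidistributive (Lat A B) := by
  constructor
  · intro x y z h
    have h1 : x.1.1 ∪ y.1.1 = x.1.1 ∪ z.1.1 := congrArg (fun t => t.1.1) h
    have h2 : x.1.2 ∪ y.1.2 = x.1.2 ∪ z.1.2 := congrArg (fun t => t.1.2) h
    have yz : ∀ p, p ∉ x.1.1 → (p ∈ y.1.1 ↔ p ∈ z.1.1) := by
      intro p hp
      have := Set.ext_iff.1 h1 p
      simp only [Set.mem_union, hp, false_or] at this
      exact this
    apply Lat.ext'
    · rw [sup_fst, sup_fst, inf_fst]
      ext p
      have := Set.ext_iff.1 h1 p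
      simp only [Set.mem_union, Set.mem_inter_iff] at this ⊢
      tauto
    · rw [sup_snd, sup_snd]
      ext w
      simp only [Set.mem_union]
      constructor
      · rintro (hw | hw)
        · exact Or.inl hw
        · exact Or.inr hw.1
      · rintro (hw | hw)
        · exact Or.inl hw
        · by_cases hx : w ∈ x.1.2
          · exact Or.inl hx
          · right
            have hz : w ∈ z.1.2 := by
              have := Set.ext_iff.1 h2 w
              simp only [Set.mem_union, hx, false_or] at this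
              exact this.1 hw
            have hA : ∀ p ∈ A w, p ∉ x.1.1 := fun p hp hp' => hx ((x.2 w).1 ⟨p, hp, hp'⟩)
            refine ⟨hw, hz, ?_⟩
            rcases (y.2 w).2 hw with ⟨p, hp, hp'⟩ | hB
            · exact Or.inl ⟨p, hp, hp', (yz p (hA p hp)).1 hp'⟩
            · rcases (z.2 w).2 hz with ⟨p, hp, hp'⟩ | hB'
              · exact Or.inl ⟨p, hp, (yz p (hA p hp)).2 hp', hp'⟩
              · exact Or.inr (Set.subset_inter hB hB')
  · intro x y z h
    have h1 : x.1.1 ∩ y.1.1 = x.1.1 ∩ z.1.1 := congrArg (fun t => t.1.1) h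
    have h2 : (x ⊓ y).1.2 = (x ⊓ z).1.2 := congrArg (fun t => t.1.2) h
    have h3 : x.1.1 ∩ (y.1.1 ∪ z.1.1) = x.1.1 ∩ y.1.1 := by
      rw [Set.inter_union_distrib_left, ← h1, Set.union_self]
    apply Lat.ext'
    · rw [inf_fst, inf_fst, sup_fst, h3]
    · ext w
      rw [mem_inf_snd, mem_inf_snd, sup_fst, sup_snd, h3]
      constructor
      · rintro ⟨hx, hy | hz, hc⟩
        · exact ⟨hx, hy, hc⟩
        · have : w ∈ (x ⊓ z).1.2 := by
            rw [mem_inf_snd]
            exact ⟨hx, hz, by rw [← h1]; exact hc⟩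
          rw [← h2, mem_inf_snd] at this
          exact this
      · rintro ⟨hx, hy, hc⟩
        exact ⟨hx, Or.inl hy, hc⟩

/-- The join-irreducible element belonging to `w`. -/
def g (A B : V → Set P) (w : V) : Lat A B :=
  ⟨(B w, {w' | w' = w ∨ (A w' ∩ B w).Nonempty}), fun w' => by
    constructor
    · intro h
      exact Or.inr h
    · rintro (rfl | h)
      · exact Or.inr subset_rfl
      · exact Or.inl h⟩

/-- The lower cover of `g w`. -/
def gs (A B : V → Set P) (w : V) : Lat A B :=
  ⟨(B w, {w' | (A w' ∩ B w).Nonempty}), fun w' => by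
    constructor
    · intro h
      exact h
    · intro h
      exact Or.inl h⟩

theorem g_le {w : V} {x : Lat A B} (h1 : B w ⊆ x.1.1) (h2 : w ∈ x.1.2) : g A B w ≤ x := by
  refine ⟨h1, ?_⟩
  rintro w' (rfl | ⟨p, hp, hp'⟩)
  · exact h2
  · exact (x.2 w').1 ⟨p, hp, h1 hp'⟩

theorem g_supIrred (hAB : ∀ w, Disjoint (A w) (B w)) (w : V) : SupIrred (g A B w) := by
  constructor
  · intro h
    have h1 : g A B w ≤ ⊥ := h bot_le
    exact h1.2 (Or.inl rfl)
  · have key : ∀ b c : Lat A B, b ⊔ c = g A B w → w ∈ b.1.2 → b = g A B w := by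
      intro b c h hw
      have hb : b ≤ g A B w := h ▸ le_sup_left
      refine le_antisymm hb (g_le ?_ hw)
      rcases (b.2 w).2 hw with ⟨p, hp, hp'⟩ | h'
      · exact absurd (hb.1 hp') (Set.disjoint_left.1 (hAB w) hp)
      · exact h'
    intro b c h
    have hw : w ∈ (b ⊔ c).1.2 := by rw [h]; exact Or.inl rfl
    rcases hw with hw | hw
    · exact Or.inl (key b c h hw)
    · exact Or.inr (key c b (by rw [sup_comm]; exact h) hw)

theorem mem_sup_snd (C : Finset (Lat A B)) (w : V) :
    w ∈ (C.sup id).1.2 ↔ ∃ c ∈ C, w ∈ c.1.2 := by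
  classical
  induction C using Finset.induction_on with
  | empty => simp only [Finset.sup_empty, Finset.notMem_empty, false_and, exists_false, iff_false]
             intro h; exact h
  | insert a s ha ih =>
    rw [Finset.sup_insert, sup_snd]
    simp only [id, Set.mem_union, Finset.mem_insert, exists_eq_or_imp]
    rw [← ih]

/-- Nonadjacent vertices give faces. -/
theorem face_of_not_adj (hB : ∀ x y, x ≠ y → ¬ B x ⊆ B y) (hAB : ∀ w, Disjoint (A w) (B w))
    {x y : V} (hxy : x ≠ y) (h1 : Disjoint (A x) (B y)) (h2 : Disjoint (A y) (B x)) :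
    IsFace (Lat A B) (pr ⟨g A B x, g_supIrred hAB x⟩ ⟨g A B y, g_supIrred hAB y⟩) := by
  have hm : (pr (⟨g A B x, g_supIrred hAB x⟩ : {j : Lat A B // SupIrred j})
      ⟨g A B y, g_supIrred hAB y⟩).map (Function.Embedding.subtype _) =
      pr (g A B x) (g A B y) := map_pr _ _ _
  refine ⟨g A B x ⊔ g A B y, ?_⟩
  rw [hm]
  have hle : ∀ a b : V, a ≠ b → ¬ g A B a ≤ g A B b := fun a b hab h => hB a b hab h.1
  -- refinement
  have href : ∀ a b : V, Disjoint (A a) (B a) → Disjoint (A a) (B b) →
      ∀ C : Finset (Lat A B), C.sup id = g A B a ⊔ g A B b → ∃ c ∈ C, g A B a ≤ c := by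
    intro a b hd hd' C hC
    have ha : a ∈ (C.sup id).1.2 := by rw [hC]; exact Or.inl (Or.inl rfl)
    obtain ⟨c, hc, hac⟩ := (mem_sup_snd C a).1 ha
    refine ⟨c, hc, g_le ?_ hac⟩
    have hcl : c ≤ g A B a ⊔ g A B b := hC ▸ Finset.le_sup (f := id) hc
    rcases (c.2 a).2 hac with ⟨p, hp, hp'⟩ | h'
    · rcases hcl.1 hp' with h | h
      · exact absurd h (Set.disjoint_left.1 hd hp)
      · exact absurd h (Set.disjoint_left.1 hd' hp)
    · exact h'
  refine ⟨sup_pr _ _, ?_, ?_⟩
  · intro D hD hDs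
    obtain ⟨c, hc, hxc⟩ := href x y (hAB x) h1 D hDs
    obtain ⟨d, hd, hyd⟩ := href y x (hAB y) h2 D (by rw [hDs, sup_comm])
    have hcx : c = g A B x := by
      have := hD.1 hc
      rw [mem_pr] at this
      rcases this with h | h
      · exact h
      · exact absurd (h ▸ hxc) (hle x y hxy)
    have hdy : d = g A B y := by
      have := hD.1 hd
      rw [mem_pr] at this
      rcases this with h | h
      · exact absurd (h ▸ hyd) (hle y x hxy.symm)
      · exact h
    apply hD.2
    intro e he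
    rw [mem_pr] at he
    rcases he with rfl | rfl
    · exact hcx ▸ hc
    · exact hdy ▸ hd
  · intro C hC a ha
    rw [mem_pr] at ha
    rcases ha with rfl | rfl
    · exact href x y (hAB x) h1 C hC
    · exact href y x (hAB y) h2 C (by rw [hC, sup_comm])

/-- An arrow from `x` to `y` prevents the pair from being a face. -/
theorem not_face_of_arrow (hB : ∀ x y, x ≠ y → ¬ B x ⊆ B y) (hAB : ∀ w, Disjoint (A w) (B w))
    {x y : V} (hxy : x ≠ y) (h1 : (A x ∩ B y).Nonempty) :
    ¬ IsFace (Lat A B) (pr ⟨g A B x, g_supIrred hAB x⟩ ⟨g A B y, g_supIrred hAB y⟩) := by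
  have hm : (pr (⟨g A B x, g_supIrred hAB x⟩ : {j : Lat A B // SupIrred j})
      ⟨g A B y, g_supIrred hAB y⟩).map (Function.Embedding.subtype _) =
      pr (g A B x) (g A B y) := map_pr _ _ _
  rintro ⟨w, hw⟩
  rw [hm] at hw
  obtain ⟨hs, -, hr⟩ := hw
  have hC : (pr (gs A B x) (g A B y)).sup id = w := by
    rw [← hs, sup_pr, sup_pr]
    apply Lat.ext'
    · rfl
    · rw [sup_snd, sup_snd]
      ext v
      simp only [Set.mem_union]
      constructor
      · rintro (h | h)
        · exact Or.inl (Or.inr h)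
        · exact Or.inr h
      · rintro ((rfl | h) | h)
        · exact Or.inr (Or.inr h1)
        · exact Or.inl h
        · exact Or.inr h
  obtain ⟨c, hc, hxc⟩ := hr _ hC (g A B x) (mem_pr.2 (Or.inl rfl))
  rw [mem_pr] at hc
  rcases hc with rfl | rfl
  · obtain ⟨p, hp, hp'⟩ : (A x ∩ B x).Nonempty := hxc.2 (Or.inl rfl)
    exact Set.disjoint_left.1 (hAB x) hp hp'
  · exact hB x y hxy hxc.1

end Construction

/-! ### The theory of finite semidistributive lattices -/

section Theory

variable {L : Type u} [Lattice L] [OrderBot L] [Finite L]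

/-- The lower cover of a join-irreducible element. -/
theorem exists_lower (j : {j : L // SupIrred j}) :
    ∃ m : L, m < j.1 ∧ ∀ x, x < j.1 → x ≤ m := by
  classical
  have := Fintype.ofFinite L
  refine ⟨(Finset.univ.filter (fun x => x < j.1)).sup id, ?_, ?_⟩
  · refine lt_of_le_of_ne ?_ ?_
    · apply Finset.sup_le
      intro x hx
      exact (Finset.mem_filter.1 hx).2.le
    · intro h
      obtain ⟨i, hi, hij⟩ := j.2.finset_sup_eq h
      exact (Finset.mem_filter.1 hi).2.ne hij
  · intro x hx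
    exact Finset.le_sup (f := id) (Finset.mem_filter.2 ⟨Finset.mem_univ _, hx⟩)

/-- The lower cover `j_*`. -/
noncomputable def low (j : {j : L // SupIrred j}) : L := (exists_lower j).choose

theorem low_lt (j : {j : L // SupIrred j}) : low j < j.1 := (exists_lower j).choose_spec.1

theorem le_low {j : {j : L // SupIrred j}} {x : L} (h : x < j.1) : x ≤ low j :=
  (exists_lower j).choose_spec.2 x h

theorem exists_kappa (hL : IsSemidistributive L) (j : {j : L // SupIrred j}) :
    ∃ m : L, low j ≤ m ∧ ¬ j.1 ≤ m ∧ ∀ x, low j ≤ x → ¬ j.1 ≤ x → x ≤ m := by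
  have hfin : {x : L | low j ≤ x ∧ ¬ j.1 ≤ x}.Finite := Set.toFinite _
  have hne : {x : L | low j ≤ x ∧ ¬ j.1 ≤ x}.Nonempty := ⟨low j, le_rfl, (low_lt j).not_ge⟩
  obtain ⟨m, hm⟩ := hfin.exists_maximal hne
  have hinf : ∀ x : L, low j ≤ x → ¬ j.1 ≤ x → j.1 ⊓ x = low j := by
    intro x h1 h2
    apply le_antisymm
    · apply le_low
      refine lt_of_le_of_ne inf_le_left ?_
      intro h
      exact h2 (h ▸ inf_le_right)
    · exact le_inf (low_lt j).le h1
  refine ⟨m, hm.1.1, hm.1.2, ?_⟩
  intro x h1 h2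
  have h3 : j.1 ⊓ (m ⊔ x) = low j := by
    rw [hL.2 _ _ _ ((hinf m hm.1.1 hm.1.2).trans (hinf x h1 h2).symm)]
    exact hinf m hm.1.1 hm.1.2
  have h4 : m ⊔ x ∈ {x : L | low j ≤ x ∧ ¬ j.1 ≤ x} := by
    refine ⟨h1.trans le_sup_right, ?_⟩
    intro h
    rw [inf_eq_left.2 h] at h3
    exact (low_lt j).ne h3.symm
  exact le_sup_right.trans (hm.2 h4 le_sup_left)

/-- The map `κ`. -/
noncomputable def kap (hL : IsSemidistributive L) (j : {j : L // SupIrred j}) : L :=
  (exists_kappa hL j).choose

variable (hL : IsSemidistributive L)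

include hL

theorem low_le_kap (j : {j : L // SupIrred j}) : low j ≤ kap hL j :=
  (exists_kappa hL j).choose_spec.1

theorem not_le_kap (j : {j : L // SupIrred j}) : ¬ j.1 ≤ kap hL j :=
  (exists_kappa hL j).choose_spec.2.1

theorem le_kap {j : {j : L // SupIrred j}} {x : L} (h1 : low j ≤ x) (h2 : ¬ j.1 ≤ x) :
    x ≤ kap hL j := (exists_kappa hL j).choose_spec.2.2 x h1 h2

theorem brick {z k : {j : L // SupIrred j}} (h1 : z.1 ≤ k.1) (h2 : kap hL k ≤ kap hL z) :
    z = k := by
  by_contra hne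
  have hlt : z.1 < k.1 := lt_of_le_of_ne h1 (fun h => hne (Subtype.ext h))
  exact not_le_kap hL z (((le_low hlt).trans (low_le_kap hL k)).trans h2)

theorem kap_injective {j k : {j : L // SupIrred j}} (h : kap hL j = kap hL k) : j = k := by
  by_contra hne
  have key : ∀ a b : {j : L // SupIrred j}, kap hL a = kap hL b → b.1 ≤ kap hL a ⊔ a.1 := by
    intro a b hab
    by_contra hn
    have h1 : kap hL a ⊔ a.1 ≤ kap hL b := by
      refine le_kap hL ?_ hn
      rw [hab]
      exact (low_le_kap hL b).trans le_sup_left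
    rw [← hab] at h1
    exact not_le_kap hL a (le_sup_right.trans h1)
  have h1 : kap hL j ⊔ j.1 = kap hL j ⊔ k.1 := by
    apply le_antisymm
    · refine sup_le le_sup_left ?_
      have := key k j h.symm
      rw [← h] at this
      exact this
    · exact sup_le le_sup_left (key j k h)
  have h2 := hL.1 _ _ _ h1
  by_cases hjk : j.1 ⊓ k.1 < j.1
  · have h3 : j.1 ⊓ k.1 ≤ kap hL j := (le_low hjk).trans (low_le_kap hL j)
    rw [sup_eq_left.2 h3] at h2
    exact not_le_kap hL j (h2 ▸ le_sup_right)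
  · have h3 : j.1 ≤ k.1 := by
      by_contra hn
      exact hjk (lt_of_le_of_ne inf_le_left (fun h => hn (h ▸ inf_le_right)))
    exact hne (brick hL h3 h.ge)

omit [Finite L] in
/-- Replacing the elements `c` of a join representation by `a ⊓ c`. -/
theorem sup_inf_of_sup {a b w : L} (hab : b ⊔ a = w) (C : Finset L) :
    ∀ X : L, b ≤ X → X ⊔ C.sup id = w → X ⊔ C.sup (fun c => a ⊓ c) = w := by
  classical
  induction C using Finset.induction_on with
  | empty => intro X _ h; simpa using h
  | insert c s hc ih =>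
    intro X hX h
    rw [Finset.sup_insert] at h ⊢
    have h1 : (X ⊔ s.sup id) ⊔ c = w := by
      rw [← h]
      simp only [id]
      ac_rfl
    have h2 : (X ⊔ s.sup id) ⊔ a = w := by
      apply le_antisymm
      · refine sup_le ?_ ?_
        · rw [← h1]; exact le_sup_left
        · rw [← hab]; exact le_sup_right
      · rw [← hab]
        exact sup_le_sup_right (hX.trans le_sup_left) a
    have h3 := hL.1 _ _ _ (h2.trans h1.symm)
    rw [h2] at h3
    have h4 := ih (X ⊔ (a ⊓ c)) (hX.trans le_sup_left) (by rw [← h3]; ac_rfl)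
    rw [← h4]
    ac_rfl

theorem face_of_le {j k : {j : L // SupIrred j}} (h1 : j.1 ≤ kap hL k)
    (h2 : k.1 ≤ kap hL j) : IsFace L (pr j k) := by
  have hm : (pr j k).map (Function.Embedding.subtype _) = pr j.1 k.1 := map_pr _ _ _
  refine ⟨j.1 ⊔ k.1, ?_⟩
  rw [hm]
  have href : ∀ a b : {j : L // SupIrred j}, b.1 ≤ kap hL a →
      ∀ C : Finset L, C.sup id = a.1 ⊔ b.1 → ∃ c ∈ C, a.1 ≤ c := by
    intro a b hb C hC
    by_contra hn
    push Not at hn
    have h3 := sup_inf_of_sup hL (a := a.1) (b := b.1) (w := a.1 ⊔ b.1) (by rw [sup_comm]) C b.1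
      le_rfl (by rw [hC]; exact sup_eq_right.2 le_sup_right)
    have h4 : b.1 ⊔ C.sup (fun c => a.1 ⊓ c) ≤ kap hL a := by
      refine sup_le hb (Finset.sup_le ?_)
      intro c hc
      refine (le_low ?_).trans (low_le_kap hL a)
      refine lt_of_le_of_ne inf_le_left ?_
      intro h
      exact hn c hc (h ▸ inf_le_right)
    rw [h3] at h4
    exact not_le_kap hL a (le_sup_left.trans h4)
  have hnle : ∀ a b : {j : L // SupIrred j}, b.1 ≤ kap hL a → ¬ a.1 ≤ b.1 :=
    fun a b h h' => not_le_kap hL a (h'.trans h)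
  refine ⟨sup_pr _ _, ?_, ?_⟩
  · intro D hD hDs
    obtain ⟨c, hc, hjc⟩ := href j k h2 D hDs
    obtain ⟨d, hd, hkd⟩ := href k j h1 D (by rw [hDs, sup_comm])
    have hcj : c = j.1 := by
      have := hD.1 hc
      rw [mem_pr] at this
      rcases this with h | h
      · exact h
      · exact absurd (h ▸ hjc) (hnle j k h2)
    have hdk : d = k.1 := by
      have := hD.1 hd
      rw [mem_pr] at this
      rcases this with h | h
      · exact absurd (h ▸ hkd) (hnle k j h1)
      · exact h
    apply hD.2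
    intro e he
    rw [mem_pr] at he
    rcases he with rfl | rfl
    · exact hcj ▸ hc
    · exact hdk ▸ hd
  · intro C hC a ha
    rw [mem_pr] at ha
    rcases ha with rfl | rfl
    · exact href j k h2 C hC
    · exact href k j h1 C (by rw [hC, sup_comm])

theorem le_of_face {j k : {j : L // SupIrred j}} (hjk : j ≠ k) (h : IsFace L (pr j k)) :
    k.1 ≤ kap hL j := by
  have hm : (pr j k).map (Function.Embedding.subtype _) = pr j.1 k.1 := map_pr _ _ _
  obtain ⟨w, hw⟩ := h
  rw [hm] at hw
  obtain ⟨hs, hi, hr⟩ := hw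
  have hs' : j.1 ⊔ k.1 = w := by rw [← hs]; exact (sup_pr _ _).symm
  have hjk' : ¬ j.1 ≤ k.1 := by
    intro hle
    have hss : ({k.1} : Finset L) ⊂ pr j.1 k.1 := by
      rw [Finset.ssubset_iff_subset_ne]
      refine ⟨by rw [Finset.singleton_subset_iff]; exact mem_pr.2 (Or.inr rfl), ?_⟩
      intro he
      have : j.1 ∈ ({k.1} : Finset L) := by rw [he]; exact mem_pr.2 (Or.inl rfl)
      rw [Finset.mem_singleton] at this
      exact hjk (Subtype.ext this)
    apply hi _ hss
    rw [← hs', sup_eq_right.2 hle]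
    simp
  have hn : ¬ j.1 ≤ low j ⊔ k.1 := by
    intro hle
    have hC : (pr (low j) k.1).sup id = w := by
      rw [← hs', sup_pr]
      apply le_antisymm
      · exact sup_le_sup_right (low_lt j).le _
      · exact sup_le hle le_sup_right
    obtain ⟨c, hc, hjc⟩ := hr _ hC j.1 (mem_pr.2 (Or.inl rfl))
    rw [mem_pr] at hc
    rcases hc with rfl | rfl
    · exact (low_lt j).not_ge hjc
    · exact hjk' hjc
  exact le_sup_right.trans (le_kap hL le_sup_left hn)

theorem exists_factor {j k : {j : L // SupIrred j}} (h : ¬ j.1 ≤ kap hL k) :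
    ∃ z : {j : L // SupIrred j}, z.1 ≤ j.1 ∧ ¬ z.1 ≤ kap hL k ∧ kap hL k ≤ kap hL z := by
  have hfin : {x : L | x ≤ j.1 ∧ ¬ x ≤ kap hL k}.Finite := Set.toFinite _
  obtain ⟨z, hz⟩ := hfin.exists_minimal ⟨j.1, le_rfl, h⟩
  have hmin : ∀ x : L, x < z → x ≤ kap hL k := by
    intro x hx
    by_contra hn
    exact hx.not_ge (hz.2 ⟨hx.le.trans hz.1.1, hn⟩ hx.le)
  have hirr : SupIrred z := by
    constructor
    · intro hm
      exact hz.1.2 ((hm bot_le).trans bot_le)
    · intro b c hbc
      by_contra hn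
      push Not at hn
      have hb : b < z := lt_of_le_of_ne (hbc ▸ le_sup_left) hn.1
      have hc : c < z := lt_of_le_of_ne (hbc ▸ le_sup_right) hn.2
      exact hz.1.2 (hbc ▸ sup_le (hmin b hb) (hmin c hc))
  refine ⟨⟨z, hirr⟩, hz.1.1, hz.1.2, ?_⟩
  exact le_kap hL (hmin _ (low_lt ⟨z, hirr⟩)) hz.1.2

/-- If the pairs that are not faces form a triangle-free graph, this graph is 3-colourable. -/
theorem three_colouring
    (htf : ∀ a b c : {j : L // SupIrred j}, a ≠ b → b ≠ c → a ≠ c →
      ¬ IsFace L (pr a b) → ¬ IsFace L (pr b c) → ¬ IsFace L (pr a c) → False) :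
    ∃ col : {j : L // SupIrred j} → Fin 3,
      ∀ a b, a ≠ b → ¬ IsFace L (pr a b) → col a ≠ col b := by
  classical
  -- arrows are non-faces
  have harr : ∀ a b : {j : L // SupIrred j}, a ≠ b → ¬ a.1 ≤ kap hL b → ¬ IsFace L (pr a b) := by
    intro a b hab h hf
    rw [pr_comm] at hf
    exact h (le_of_face hL hab.symm hf)
  have htri : ∀ a b c : {j : L // SupIrred j}, a ≠ b → b ≠ c → a ≠ c →
      ¬ a.1 ≤ kap hL b → ¬ b.1 ≤ kap hL c → ¬ a.1 ≤ kap hL c → False := by
    intro a b c h1 h2 h3 h4 h5 h6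
    exact htf a b c h1 h2 h3 (harr a b h1 h4) (harr b c h2 h5) (harr a c h3 h6)
  -- every arrow starts at a source or ends at a sink
  have hfac : ∀ a b : {j : L // SupIrred j}, a ≠ b → ¬ a.1 ≤ kap hL b →
      kap hL b ≤ kap hL a ∨ b.1 ≤ a.1 := by
    intro a b hab h
    obtain ⟨z, hz1, hz2, hz3⟩ := exists_factor hL h
    by_cases hza : z = a
    · exact Or.inl (hza ▸ hz3)
    · by_cases hzb : z = b
      · exact Or.inr (hzb ▸ hz1)
      · exact (htri a z b (Ne.symm hza) hzb hab (fun hc => not_le_kap hL z (hz1.trans hc)) hz2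
          h).elim
  have hsrc : ∀ a b : {j : L // SupIrred j}, a ≠ b → ¬ a.1 ≤ kap hL b →
      kap hL b ≤ kap hL a → ∀ i, i ≠ a → i.1 ≤ kap hL a := by
    intro a b hab h hk i hia
    by_contra hi
    by_cases hib : i = b
    · subst hib
      rcases hfac i a hia hi with h1 | h1
      · exact hab (kap_injective hL (le_antisymm h1 hk))
      · exact hab (brick hL h1 hk)
    · exact htri i a b hia hab hib hi h (fun hc => hi (hc.trans hk))
  have hsnk : ∀ a b : {j : L // SupIrred j}, a ≠ b → ¬ a.1 ≤ kap hL b →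
      b.1 ≤ a.1 → ∀ l, l ≠ b → b.1 ≤ kap hL l := by
    intro a b hab h hk l hlb
    by_contra hl
    by_cases hla : l = a
    · subst hla
      rcases hfac b l hlb.symm hl with h1 | h1
      · exact hab (brick hL hk h1).symm
      · exact hab (Subtype.ext (le_antisymm h1 hk))
    · exact htri a b l hab hlb.symm (Ne.symm hla) h hl (fun hc => hl (hk.trans hc))
  let col : {j : L // SupIrred j} → Fin 3 := fun a =>
    if ∀ i, i ≠ a → i.1 ≤ kap hL a then 0
    else if ∀ l, l ≠ a → a.1 ≤ kap hL l then 1 else 2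
  have hcol : ∀ a b : {j : L // SupIrred j}, a ≠ b → ¬ a.1 ≤ kap hL b → col a ≠ col b := by
    intro a b hab h
    have hb : ¬ ∀ i, i ≠ b → i.1 ≤ kap hL b := fun hc => h (hc a hab)
    have ha : ¬ ∀ l, l ≠ a → a.1 ≤ kap hL l := fun hc => h (hc b hab.symm)
    rcases hfac a b hab h with h1 | h1
    · have h2 := hsrc a b hab h h1
      have e1 : col a = 0 := if_pos h2
      have e2 : col b ≠ 0 := by
        simp only [col, if_neg hb]
        split_ifs <;> decide
      rw [e1]
      exact e2.symm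
    · have h2 := hsnk a b hab h h1
      have e1 : col b = 1 := by
        simp only [col, if_neg hb, if_pos h2]
      have e2 : col a ≠ 1 := by
        simp only [col, if_neg ha]
        split_ifs <;> decide
      rw [e1]
      exact e2
  refine ⟨col, ?_⟩
  intro a b hab hf
  by_cases h1 : a.1 ≤ kap hL b
  · by_cases h2 : b.1 ≤ kap hL a
    · exact absurd (face_of_le hL h1 h2) hf
    · exact (hcol b a hab.symm h2).symm
  · exact hcol a b hab h1

end Theory

/-! ### The Groetzsch graph -/

/-- Arrows `x → y` (for `x < y`) of the Groetzsch graph: vertices `0, ..., 4` form a 5-cycle, the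
vertex `5 + i` is joined to the two neighbours of `i` on this cycle and to the vertex `10`. -/
def arr (x y : Fin 11) : Bool :=
  ([(0, 1), (1, 2), (2, 3), (3, 4), (0, 4),
    (1, 5), (4, 5), (0, 6), (2, 6), (1, 7), (3, 7), (2, 8), (4, 8), (0, 9), (3, 9),
    (5, 10), (6, 10), (7, 10), (8, 10), (9, 10)] : List (Fin 11 × Fin 11)).contains (x, y)

/-- Adjacency in the Groetzsch graph. -/
def adj (x y : Fin 11) : Prop := arr x y = true ∨ arr y x = true

instance (x y : Fin 11) : Decidable (adj x y) := inferInstanceAs (Decidable (_ ∨ _))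

theorem triangle_free : ∀ x y z : Fin 11, adj x y → adj y z → adj x z → False := by
  decide

set_option synthInstance.maxSize 4000 in
set_option maxRecDepth 100000 in
theorem five_cycle_aux : ∀ w a b c d e : Fin 3, ¬ ((a ≠ w ∧ b ≠ w ∧ c ≠ w ∧ d ≠ w ∧ e ≠ w) ∧
    (a ≠ b ∧ b ≠ c ∧ c ≠ d ∧ d ≠ e ∧ a ≠ e)) := by
  decide

theorem five_cycle (w a b c d e : Fin 3) (h1 : a ≠ w) (h2 : b ≠ w) (h3 : c ≠ w) (h4 : d ≠ w)
    (h5 : e ≠ w) (h6 : a ≠ b) (h7 : b ≠ c) (h8 : c ≠ d) (h9 : d ≠ e) (h10 : a ≠ e) : False :=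
  five_cycle_aux w a b c d e ⟨⟨h1, h2, h3, h4, h5⟩, h6, h7, h8, h9, h10⟩

theorem not_three_colourable (c : Fin 11 → Fin 3) (hc : ∀ x y, adj x y → c x ≠ c y) : False := by
  let f : Fin 11 → Fin 11 → Fin 3 := fun x y => if c x = c 10 then c y else c x
  have h1 : ∀ x y : Fin 11, adj y 10 → f x y ≠ c 10 := by
    intro x y hy
    simp only [f]
    split_ifs with h
    · exact hc _ _ hy
    · exact h
  have h2 : ∀ x x' y y' : Fin 11, adj x x' → adj y x' → adj y' x → f x x' ≠ f x x' ∨
      f x y ≠ f x' y' := by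
    intro x x' y y' hx hy hy'
    right
    simp only [f]
    split_ifs with h h' h'
    · exact absurd (h.trans h'.symm) (hc _ _ hx)
    · exact hc _ _ hy
    · exact (hc _ _ hy').symm
    · exact hc _ _ hx
  have h3 : ∀ x x' y y' : Fin 11, adj x x' → adj y x' → adj y' x → f x y ≠ f x' y' := by
    intro x x' y y' hx hy hy'
    rcases h2 x x' y y' hx hy hy' with h | h
    · exact absurd rfl h
    · exact h
  exact five_cycle (c 10) (f 0 5) (f 1 6) (f 2 7) (f 3 8) (f 4 9)
    (h1 _ _ (by decide)) (h1 _ _ (by decide)) (h1 _ _ (by decide)) (h1 _ _ (by decide))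
    (h1 _ _ (by decide))
    (h3 _ _ _ _ (by decide) (by decide) (by decide))
    (h3 _ _ _ _ (by decide) (by decide) (by decide))
    (h3 _ _ _ _ (by decide) (by decide) (by decide))
    (h3 _ _ _ _ (by decide) (by decide) (by decide))
    (h3 _ _ _ _ (by decide) (by decide) (by decide))

/-! ### The theorem -/

/-- The set `A x`: the arrows that leave `x`. -/
def setA (x : Fin 11) : Set (Fin 11 ⊕ (Fin 11 × Fin 11)) :=
  {p | ∃ y, arr x y = true ∧ p = Sum.inr (x, y)}

/-- The set `B x`: the private point of `x` and the arrows that enter `x`. -/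
def setB (x : Fin 11) : Set (Fin 11 ⊕ (Fin 11 × Fin 11)) :=
  {p | p = Sum.inl x ∨ ∃ y, arr y x = true ∧ p = Sum.inr (y, x)}

theorem arr_irrefl : ∀ x : Fin 11, arr x x = false := by decide

theorem disjAB (x : Fin 11) : Disjoint (setA x) (setB x) := by
  rw [Set.disjoint_left]
  rintro p ⟨y, hy, rfl⟩ (h | ⟨z, hz, h⟩)
  · exact Sum.inr_ne_inl h
  · have h1 := Sum.inr_injective h
    rw [Prod.mk.injEq] at h1
    have h2 := arr_irrefl x
    rw [h1.2] at hy
    rw [h2] at hy
    exact Bool.false_ne_true hy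

theorem notsubB (x y : Fin 11) (h : x ≠ y) : ¬ setB x ⊆ setB y := by
  intro hs
  have h1 : (Sum.inl x : Fin 11 ⊕ (Fin 11 × Fin 11)) ∈ setB x := Or.inl rfl
  rcases hs h1 with h2 | ⟨z, -, h2⟩
  · exact h (Sum.inl_injective h2)
  · exact Sum.inl_ne_inr h2

theorem meetAB (x y : Fin 11) : (setA x ∩ setB y).Nonempty ↔ arr x y = true := by
  constructor
  · rintro ⟨p, ⟨z, hz, rfl⟩, (h | ⟨t, ht, h⟩)⟩
    · exact absurd h Sum.inr_ne_inl
    · have h1 := Sum.inr_injective h
      rw [Prod.mk.injEq] at h1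
      rw [h1.2] at hz
      exact hz
  · intro h
    exact ⟨Sum.inr (x, y), ⟨y, h, rfl⟩, Or.inr ⟨x, h, rfl⟩⟩

theorem face_iff (x y : Fin 11) (hxy : x ≠ y) :
    IsFace (Lat setA setB) (pr ⟨g setA setB x, g_supIrred disjAB x⟩
      ⟨g setA setB y, g_supIrred disjAB y⟩) ↔ ¬ adj x y := by
  constructor
  · rintro hf (h | h)
    · exact not_face_of_arrow notsubB disjAB hxy ((meetAB x y).2 h) hf
    · rw [pr_comm] at hf
      exact not_face_of_arrow notsubB disjAB hxy.symm ((meetAB y x).2 h) hf
  · intro h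
    have h1 : ∀ a b : Fin 11, ¬ arr a b = true → Disjoint (setA a) (setB b) := by
      intro a b hab
      rw [Set.disjoint_iff_inter_eq_empty]
      by_contra hne
      exact hab ((meetAB a b).1 (Set.nonempty_iff_ne_empty.2 hne))
    exact face_of_not_adj notsubB disjAB hxy (h1 _ _ fun h' => h (Or.inl h'))
      (h1 _ _ fun h' => h (Or.inr h'))

/-- **Theorem.** There are a finite semidistributive lattice `L` and a set `W` of join-irreducible
elements of `L` such that the subcomplex induced on `W` by the canonical join complex of `L` is not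
isomorphic to the canonical join complex of any finite semidistributive lattice `L'`. -/
theorem result :
    ∃ (L : Type) (_ : Lattice L) (_ : OrderBot L) (_ : Finite L), IsSemidistributive L ∧
      ∃ W : Set {j : L // SupIrred j},
        ∀ (L' : Type v) [Lattice L'] [OrderBot L'] [Finite L'], IsSemidistributive L' →
          ¬ ∃ e : W ≃ {j : L' // SupIrred j}, ∀ S : Finset W,
            IsFace L (S.map (Function.Embedding.subtype _)) ↔
              IsFace L' (S.map e.toEmbedding) := by
  classical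
  refine ⟨Lat setA setB, inferInstance, inferInstance, inferInstance, lat_semidistributive,
    Set.range (fun x => ⟨g setA setB x, g_supIrred disjAB x⟩), ?_⟩
  intro L' _ _ _ hL' ⟨e, he⟩
  let γ : Fin 11 → Set.range (fun x : Fin 11 =>
      (⟨g setA setB x, g_supIrred disjAB x⟩ : {j : Lat setA setB // SupIrred j})) :=
    fun x => ⟨⟨g setA setB x, g_supIrred disjAB x⟩, x, rfl⟩
  have hγinj : Function.Injective γ := by
    intro x y h
    by_contra hne
    have h1 : g setA setB x = g setA setB y :=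
      congrArg (fun t => (t.1.1 : Lat setA setB)) h
    have h2 : setB x = setB y := congrArg (fun t => t.1.1) h1
    exact notsubB x y hne h2.subset
  have hγsurj : Function.Surjective γ := by
    rintro ⟨_, x, rfl⟩
    exact ⟨x, rfl⟩
  have hface : ∀ x y : Fin 11, x ≠ y → (IsFace L' (pr (e (γ x)) (e (γ y))) ↔ ¬ adj x y) := by
    intro x y hxy
    rw [← face_iff x y hxy]
    have h1 := he (pr (γ x) (γ y))
    rw [map_pr, map_pr] at h1
    exact h1.symm
  have hsurj : ∀ j : {j : L' // SupIrred j}, ∃ x, e (γ x) = j := by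
    intro j
    obtain ⟨x, hx⟩ := hγsurj (e.symm j)
    exact ⟨x, by rw [hx, Equiv.apply_symm_apply]⟩
  have hadj : ∀ x y : Fin 11, e (γ x) ≠ e (γ y) → ¬ IsFace L' (pr (e (γ x)) (e (γ y))) → adj x y := by
    intro x y hne hf
    have hxy : x ≠ y := fun h => hne (by rw [h])
    by_contra hn
    exact hf ((hface x y hxy).2 hn)
  obtain ⟨col, hcol⟩ := three_colouring hL' (by
    intro a b c hab hbc hac h1 h2 h3
    obtain ⟨x, rfl⟩ := hsurj a
    obtain ⟨y, rfl⟩ := hsurj b
    obtain ⟨z, rfl⟩ := hsurj c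
    exact triangle_free x y z (hadj x y hab h1) (hadj y z hbc h2) (hadj x z hac h3))
  refine not_three_colourable (fun x => col (e (γ x))) ?_
  intro x y hxy
  have hne : x ≠ y := by
    rintro rfl
    have := arr_irrefl x
    rcases hxy with h | h <;> rw [this] at h <;> exact Bool.false_ne_true h
  refine hcol _ _ ?_ ?_
  · intro h
    exact hne (hγinj (e.injective h))
  · intro hf
    exact (hface x y hne).1 hf hxy

end Pool.Agent.Results.MP_b1aa48_co.NotInducedClosed
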